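import Pool.Agent.Helper29.LS.Final

/-!
Alexander polynomials of periodic L-space knots: they have the form `E(t^q) Δ_{T(q, λ)}(t)`,
and they are products of cyclotomic polynomials if the quotient knot satisfies the necessary
condition of Ozsvath and Szabo for L-space knots, or if `p > 2 g + 1`, `g` the genus of the
quotient knot, `p` the prime dividing the period.
-/

namespace Pool.Agent.Results.MP_ae6099_gt.CableForm

open Polynomial Pool.Agent.Helper29.LS

/-- `D` is the Alexander polynomial of a knot with period `q = p ^ r` whose quotient knot has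
Alexander polynomial `f`, `lam` is the linking number with the axis; `D` satisfies the condition
of Ozsvath and Szabo for L-space knots. Either the relations of Murasugi hold (they do for all
periodic knots by Murasugi's theorem) or the two knots are the closures of the braids
`w ^ q` and `w` on `lam` strands. -/
theorem result {p r lam : ℕ} {D f : ℤ[X]} (hp : p.Prime) (hr : 1 ≤ r) (hlam : 1 ≤ lam)
    (hD : OSType D) (hf : f.eval 1 = 1)
    (h : Murasugi p (p ^ r) lam D f ∨
      ∃ (m : ℕ) (w : List (Fin m × Bool)), 1 ≤ m ∧ lam = m + 1 ∧ f.coeff 0 ≠ 0 ∧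
        IsAlex m (List.replicate (p ^ r) w).flatten D ∧ IsAlex m w f) :
    Nat.Coprime (p ^ r) lam ∧ ∃ E : ℤ[X], OSType E ∧ E.natDegree = f.natDegree ∧
      E.map (Int.castRingHom (ZMod p)) = f.map (Int.castRingHom (ZMod p)) ∧
      D * (1 - X ^ lam) * (1 - X ^ p ^ r) =
        E.comp (X ^ p ^ r) * (1 - X ^ (lam * p ^ r)) * (1 - X) ∧
      (OSType f ∨ f.natDegree + 1 < p →
        f = E ∧ ∀ z : ℂ, aeval z D = 0 → ∃ k : ℕ, 0 < k ∧ z ^ k = 1) := by
  have : Fact p.Prime := ⟨hp⟩
  refine cable_form hp hr hlam hD hf ?_
  rcases h with h | ⟨m, w, hm, rfl, hf0, h1, h2⟩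
  · exact h
  · exact murasugi_braid r hm w hf0 h1 h2

end Pool.Agent.Results.MP_ae6099_gt.CableForm
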